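import Pool.Agent.Helper95.BG.Core

/-!
# Boolean grammars: basic lemmas
-/

namespace Pool.Agent.Helper95.BG

open Pool.Agent.Helper65.LinSpace Pool.Agent.Helper78 Pool.Agent.Helper78.Mpc
  Pool.Agent.Helper78.Xor Finset

theorem lt01_lt_two (x y : ℕ) : lt01 x y < 2 := by
  unfold lt01
  split_ifs <;> omega

theorem dig2_lt (x i : ℕ) : dig 2 x i < 2 := dig_lt (by norm_num) _ _

theorem dig_of_lt {q x i : ℕ} (hx : x < 2 ^ q) (hi : q ≤ i) : dig 2 x i = 0 := by
  unfold dig
  rw [Nat.div_eq_of_lt (lt_of_lt_of_le hx (Nat.pow_le_pow_right (by norm_num) hi))]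

/-- Numbers with `q` bits are determined by their bits. -/
theorem ext_bits {q x y : ℕ} (hx : x < 2 ^ q) (hy : y < 2 ^ q)
    (h : ∀ t < q, dig 2 x t = 1 ↔ dig 2 y t = 1) : x = y := by
  rw [← tab_dig x q hx, ← tab_dig y q hy]
  refine tab_congr fun t ht => ?_
  have h1 := dig2_lt x t
  have h2 := dig2_lt y t
  have h3 := h t ht
  omega

theorem lor_lt (q x y : ℕ) : lor q x y < 2 ^ q := tab_lt fun _ _ => lt01_lt_two _ _

theorem orB_lt (q lo hi : ℕ) (f : ℕ → ℕ) : orB q lo hi f < 2 ^ q := tab_lt fun _ _ => lt01_lt_two _ _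

theorem dig_lor (q x y t : ℕ) : dig 2 (lor q x y) t = 1 ↔
    t < q ∧ (dig 2 x t = 1 ∨ dig 2 y t = 1) := by
  rcases Nat.lt_or_ge t q with h | h
  · unfold lor
    rw [dig_tab (fun t _ => lt01_lt_two _ _) h]
    have h1 := dig2_lt x t
    have h2 := dig2_lt y t
    unfold lt01
    split_ifs with h3
    · simp only [h, true_and, true_iff]
      omega
    · constructor
      · intro h4
        exact h4.elim
      · rintro ⟨_, h4⟩
        omega
  · rw [dig_of_lt (lor_lt q x y) h]
    constructor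
    · intro h1
      omega
    · rintro ⟨h1, _⟩
      omega

theorem dig_orB (q lo hi : ℕ) (f : ℕ → ℕ) (t : ℕ) : dig 2 (orB q lo hi f) t = 1 ↔
    t < q ∧ ∃ k, lo ≤ k ∧ k < hi ∧ dig 2 (f k) t = 1 := by
  rcases Nat.lt_or_ge t q with h | h
  · unfold orB
    rw [dig_tab (fun t _ => lt01_lt_two _ _) h]
    unfold lt01
    constructor
    · intro h3
      split_ifs at h3 with h4
      refine ⟨h, ?_⟩
      by_contra h5
      push Not at h5
      have h6 : ∑ k ∈ range (hi - lo), dig 2 (f (lo + k)) t = 0 := by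
        refine sum_eq_zero fun k hk => ?_
        rw [mem_range] at hk
        have h1 := dig2_lt (f (lo + k)) t
        have h2 := h5 (lo + k) (by omega) (by omega)
        omega
      omega
    · rintro ⟨_, k, h4, h5, h6⟩
      rw [if_pos]
      refine Nat.pos_of_ne_zero fun h7 => ?_
      rw [sum_eq_zero_iff] at h7
      have := h7 (k - lo) (mem_range.2 (by omega))
      rw [Nat.add_sub_cancel' h4, h6] at this
      omega
  · rw [dig_of_lt (orB_lt q lo hi f) h]
    constructor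
    · intro h1
      omega
    · rintro ⟨h1, _⟩
      omega

theorem orB_congr {q lo hi : ℕ} {f g : ℕ → ℕ} (h : ∀ k, lo ≤ k → k < hi → f k = g k) :
    orB q lo hi f = orB q lo hi g := by
  unfold orB
  refine tab_congr fun t _ => ?_
  congr 1
  refine sum_congr rfl fun k hk => ?_
  rw [mem_range] at hk
  rw [h (lo + k) (by omega) (by omega)]

theorem orB_empty {q lo hi : ℕ} (h : hi ≤ lo) (f : ℕ → ℕ) : orB q lo hi f = 0 := by
  refine ext_bits (orB_lt _ _ _ _) (by positivity) fun t _ => ?_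
  rw [dig_orB]
  constructor
  · rintro ⟨_, k, h1, h2, _⟩
    omega
  · intro h1
    simp [dig] at h1

/-- The disjunction over an interval is the disjunction of those over two intervals which cover
it. -/
theorem orB_split {q lo hi lo' hi' lo'' hi'' : ℕ} (f : ℕ → ℕ)
    (h : ∀ k, (lo ≤ k ∧ k < hi) ↔ (lo' ≤ k ∧ k < hi') ∨ (lo'' ≤ k ∧ k < hi'')) :
    orB q lo hi f = lor q (orB q lo' hi' f) (orB q lo'' hi'' f) := by
  refine ext_bits (orB_lt _ _ _ _) (lor_lt _ _ _) fun t ht => ?_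
  rw [dig_orB, dig_lor, dig_orB, dig_orB]
  constructor
  · rintro ⟨h1, k, h2, h3, h4⟩
    refine ⟨h1, ?_⟩
    rcases (h k).1 ⟨h2, h3⟩ with h5 | h5
    · exact Or.inl ⟨h1, k, h5.1, h5.2, h4⟩
    · exact Or.inr ⟨h1, k, h5.1, h5.2, h4⟩
  · rintro ⟨h1, ⟨_, k, h4, h5, h6⟩ | ⟨_, k, h4, h5, h6⟩⟩
    · obtain ⟨h7, h8⟩ := (h k).2 (Or.inl ⟨h4, h5⟩)
      exact ⟨h1, k, h7, h8, h6⟩
    · obtain ⟨h7, h8⟩ := (h k).2 (Or.inr ⟨h4, h5⟩)
      exact ⟨h1, k, h7, h8, h6⟩

/-- The functions have values with `q` bits. -/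
def Good (q : ℕ) (lt : ℕ → ℕ) (bt : ℕ → ℕ → ℕ) (ps : ℕ → ℕ) : Prop :=
  (∀ i, lt i < 2 ^ q) ∧ (∀ x y, bt x y < 2 ^ q) ∧ ∀ x, ps x < 2 ^ q

section

variable {q : ℕ} {lt : ℕ → ℕ} {bt : ℕ → ℕ → ℕ} {ps : ℕ → ℕ}

theorem Vf_eq : ∀ (d i j : ℕ), j ≤ i + d → Vf q lt bt ps d i j = V q lt bt ps i j := by
  have key : ∀ (d d' i j : ℕ), j ≤ i + d → j ≤ i + d' → Vf q lt bt ps d i j =
      Vf q lt bt ps d' i j := by
    intro d
    induction d with
    | zero =>
      intro d' i j h h'
      cases d' with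
      | zero => rfl
      | succ d' =>
        simp only [Vf]
        rw [if_pos (by omega)]
    | succ d ih =>
      intro d' i j h h'
      cases d' with
      | zero =>
        simp only [Vf]
        rw [if_pos (by omega)]
      | succ d' =>
        simp only [Vf]
        split_ifs with h1 h2
        · rfl
        · rfl
        · congr 1
          refine orB_congr fun k hk hk' => ?_
          rw [ih d' i k (by omega) (by omega), ih d' k j (by omega) (by omega)]
  intro d i j h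
  exact key _ _ _ _ h (by omega)

/-- The recursion for the values of the factors. -/
theorem V_eq (i j : ℕ) : V q lt bt ps i j = if j ≤ i then 0 else if j = i + 1 then lt i else
    ps (orB q (i + 1) j fun k => bt (V q lt bt ps i k) (V q lt bt ps k j)) := by
  unfold V
  rcases Nat.lt_or_ge i j with h | h
  · obtain ⟨d, hd⟩ : ∃ d, j - i = d + 1 := ⟨j - i - 1, by omega⟩
    rw [hd]
    simp only [Vf]
    split_ifs with h1 h2
    · rfl
    · rfl
    · congr 1
      refine orB_congr fun k hk hk' => ?_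
      rw [Vf_eq d i k (by omega), Vf_eq d k j (by omega)]
      rfl
  · rw [Nat.sub_eq_zero_of_le h, if_pos h]
    rfl

theorem V_lt (hg : Good q lt bt ps) (i j : ℕ) : V q lt bt ps i j < 2 ^ q := by
  rw [V_eq]
  split_ifs
  · positivity
  · exact hg.1 _
  · exact hg.2.2 _

theorem V_le {i j : ℕ} (h : j ≤ i) : V q lt bt ps i j = 0 := by
  rw [V_eq, if_pos h]

end

theorem TB_lt {q b : ℕ} {W : ℕ → ℕ → ℕ} (hW : ∀ i j, W i j < 2 ^ q) (I J : ℕ) :
    TB q b W I J < 2 ^ (b * b * q) := by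
  have := tab_lt (q := 2 ^ q) (m := b * b) (d := fun c => W (I * b + c / b) (J * b + c % b))
    fun _ _ => hW _ _
  rwa [← pow_mul, mul_comm q] at this

theorem dig_TB {q b : ℕ} {W : ℕ → ℕ → ℕ} (hW : ∀ i j, W i j < 2 ^ q) (I J : ℕ) {r s : ℕ}
    (hr : r < b) (hs : s < b) : dig (2 ^ q) (TB q b W I J) (r * b + s) =
      W (I * b + r) (J * b + s) := by
  have h1 : r * b + s < b * b := by
    have := Nat.mul_le_mul_right b (show r + 1 ≤ b from hr)
    rw [Nat.succ_mul] at this
    omega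
  unfold TB
  rw [dig_tab (fun _ _ => hW _ _) h1]
  have h2 : (r * b + s) / b = r := div_eq_block hs
  have h3 : (r * b + s) % b = s := mod_eq_block hs
  rw [h2, h3]

end Pool.Agent.Helper95.BG
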