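import Pool.Agent.Helper95.BG.Goals

/-!
# Boolean grammars: the main theorem from its parts
-/

namespace Pool.Agent.Helper95.BG

open Pool.Agent.Helper65.LinSpace Pool.Agent.Helper78 Pool.Agent.Helper78.Mpc
  Pool.Agent.Helper78.Xor Pool.Agent.Helper78.Avg Finset Filter

theorem abs_trivial {n : ℕ} {S : Set (List Bool)} (hS : S ⊆ {w | w.length = n}) :
    |(S.ncard : ℝ) - 2 ^ n / 2| ≤ 2 ^ n / 2 := by
  have h1 := ncard_le_pow hS
  have h2 : (0 : ℝ) ≤ S.ncard := Nat.cast_nonneg _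
  rw [abs_le]
  constructor <;> linarith

theorem main_of (c : ℕ) (lsg : G_LSG) (cod : G_COD) :
    ∃ (L : Set (List Bool)) (s : ℕ → List Bool), DLINSPACE L ∧ (∀ n, (s n).length = n) ∧
      (∀ w, w ∈ L ↔ Odd ((List.zipWith and (s w.length) w).count true)) ∧
      ∀ (T : Type) [Finite T] (G : BooleanGrammar T) (K : Language T),
        (G.Generates K ∨ K = G.wellFounded G.start) →
        ∀ (ι : Bool → T) (f : List Bool → List Bool → List T) (C ε : ℝ), 0 < ε →
        Computable (fun n => C * ((n : ℝ) + 1) ^ (1 - ε)) f →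
        (∀ w y, ((f w y).length : ℝ) ≤ C * ((w.length : ℝ) + y.length + 1) ^ (3 / 2 - ε)) →
        ∃ c' : ℝ, ∀ (n : ℕ) (α : List Bool),
          |({w : List Bool | w.length = n ∧ (w ∈ L ↔ ∃ v : List Bool, v.length ≤ c * n ∧
            w.map ι ++ f w (α ++ v) ∈ K)}.ncard : ℝ) - 2 ^ n / 2| ≤
            c' * ((min α.length (n - α.length) : ℕ) + 1) * 2 ^ (((n : ℝ) + α.length) / 2) := by
  obtain ⟨L, s, h1, h2, h3, h4⟩ := exists_hard (U := UG c) (lsg c)
  refine ⟨L, s, h1, h2, h3, fun T _ G K hK ι f C ε hε hf hlen => ?_⟩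
  obtain ⟨e, n₀, he⟩ := cod T G K hK ι f C ε c hε hf hlen
  refine ⟨2 ^ (e + 1 + n₀), fun n α => ?_⟩
  have hn0 : (0 : ℝ) ≤ n := Nat.cast_nonneg n
  have hm0 : (0 : ℝ) ≤ α.length := Nat.cast_nonneg _
  have hmin : (0 : ℝ) ≤ (min α.length (n - α.length) : ℕ) := Nat.cast_nonneg _
  by_cases hcase : n₀ ≤ n ∧ α.length ≤ n
  · obtain ⟨hn, hα⟩ := hcase
    have key : {w : List Bool | w.length = n ∧ (w ∈ L ↔ ∃ v : List Bool, v.length ≤ c * n ∧
        w.map ι ++ f w (α ++ v) ∈ K)} =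
        {w : List Bool | w.length = n ∧ (UG c e (num α) (num w) ≠ 0 ↔ w ∈ L)} := by
      ext w
      simp only [Set.mem_setOf_eq]
      refine and_congr_right fun hw => ?_
      subst hw
      rw [he w α hn hα]
      exact ⟨fun h => h.symm, fun h => h.symm⟩
    rw [key]
    refine (h4 e n α).1.trans ?_
    have h5 : (2 : ℝ) ^ (e + 1) ≤ 2 ^ (e + 1 + n₀) := pow_le_pow_right₀ (by norm_num) (by omega)
    refine mul_le_mul_of_nonneg_right (mul_le_mul_of_nonneg_right h5 (by positivity))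
      (by positivity)
  · refine (abs_trivial fun w hw => hw.1).trans ?_
    have h6 : (2 : ℝ) ^ n ≤ 2 ^ (e + 1 + n₀) * 2 ^ (((n : ℝ) + α.length) / 2) := by
      rcases Nat.lt_or_ge n n₀ with hn | hn
      · have h7 : (1 : ℝ) ≤ 2 ^ (((n : ℝ) + α.length) / 2) :=
          Real.one_le_rpow (by norm_num) (by positivity)
        have h8 : (2 : ℝ) ^ n ≤ 2 ^ (e + 1 + n₀) := pow_le_pow_right₀ (by norm_num) (by omega)
        calc (2 : ℝ) ^ n = 2 ^ n * 1 := by ring
          _ ≤ _ := mul_le_mul h8 h7 (by norm_num) (by positivity)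
      · have hα : n < α.length := by
          by_contra h
          exact hcase ⟨hn, by omega⟩
        have hα' : (n : ℝ) ≤ α.length := by exact_mod_cast hα.le
        have h7 : (2 : ℝ) ^ n ≤ 2 ^ (((n : ℝ) + α.length) / 2) := by
          rw [← Real.rpow_natCast]
          exact Real.rpow_le_rpow_of_exponent_le (by norm_num) (by linarith)
        have h8 : (1 : ℝ) ≤ 2 ^ (e + 1 + n₀) := one_le_pow₀ (by norm_num)
        calc (2 : ℝ) ^ n = 1 * 2 ^ n := by ring
          _ ≤ _ := mul_le_mul h8 h7 (by positivity) (by positivity)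
    have h9 : (2 : ℝ) ^ (e + 1 + n₀) * 2 ^ (((n : ℝ) + α.length) / 2) ≤
        2 ^ (e + 1 + n₀) * ((min α.length (n - α.length) : ℕ) + 1) *
          2 ^ (((n : ℝ) + α.length) / 2) := by
      refine mul_le_mul_of_nonneg_right ?_ (by positivity)
      exact le_mul_of_one_le_right (by positivity) (by linarith)
    have h10 : (0 : ℝ) < 2 ^ n := by positivity
    linarith

end Pool.Agent.Helper95.BG
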