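import Pool.Agent.Helper95.BG.Basic

/-!
# Boolean grammars: the statements of the parts of the proof
-/

namespace Pool.Agent.Helper95.BG

open Pool.Agent.Helper65.LinSpace Pool.Agent.Helper78 Pool.Agent.Helper78.Mpc
  Pool.Agent.Helper78.Xor Finset Filter

/-- LOC: the computation inside the blocks. PROOF: `W_r := nrec .. r`. Show by induction on `r`:
the cell `c < b * b` of `W_r` is `V (I b + c / b) (J b + c % b)` as soon as
`(b - 1 - c / b) + c % b < r`; after `2 b` steps these are all cells. Use `V_eq`, `orB_split` (the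
cuts `k` in the block `I`, between the blocks, in the block `J`), `orB_congr`, `dig_TB`, `V_le`
(cells with `j ≤ i` are `0`). On the diagonal both `orB`s run over the same `k`. -/
def G_LOC : Prop := ∀ (q b : ℕ) (lt : ℕ → ℕ) (bt : ℕ → ℕ → ℕ) (ps : ℕ → ℕ), 0 < b →
  Good q lt bt ps →
    (∀ I, diagL q b lt bt ps I = TB q b (V q lt bt ps) I I) ∧
    ∀ I J, I < J → offL q b lt bt ps I J
      (SB q b bt (V q lt bt ps) I J ((I + 1) * b) (J * b)) = TB q b (V q lt bt ps) I J

/-- TREE (assuming LOC): the tree evaluation computes `V 0 m`. PROOF: with `M = 2 ^ Λ` show by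
induction on `h`: (a) for `I ≤ J < M` and `h ≥ (J - I) (Λ + 2) + 1` the node `pack4 M 0 I J 0` has
the value `TB I J`; (b) for `I < J < M`, `l ≤ Λ`, `K < 2 ^ (Λ - l)` and
`h ≥ l + 1 + (J - I - 1) (Λ + 2) + 1` the node `pack4 M (l + 1) I J K` has the value
`SB I J (max ((I + 1) b) (K 2^l b)) (min (J b) ((K + 1) 2^l b))` (for `l = 0` this is `0` unless
`I < K < J`, and `prodL` of the two children if `I < K < J`; for `l + 1` it is `sumL` of the
children by `orB_split`). The node `(I, J)` uses the child `l = Λ`, `K = 0` and LOC. Useful: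
`pack4_div`, `gval`, `dig_tab`, `TB_lt`, `dig_TB`. Finally `TB 0 (m / b)` at the cell `m % b`. -/
def G_TREE : Prop := ∀ (q b Λ m : ℕ) (lt : ℕ → ℕ) (bt : ℕ → ℕ → ℕ) (ps : ℕ → ℕ), 0 < b →
  Good q lt bt ps → m / b < 2 ^ Λ → eng q b Λ lt bt ps m = V q lt bt ps 0 m

/-- LSE: `eng` is a linear-space function. PROOF: as `LS.VW` in `Helper78/Xor/Path.lean`, with
`LS.gval` (`D = 2`, `L = b * b * q`, `p = pL L`, `G = (Λ + 2) * (M * M * M)` or similar), `LS.nrec`,
`LS.tab`, `LS.sum_le` for the parts. -/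
def G_LSE : Prop := ∀ (α : Type) [Ctx α] (q b Λ m BT PS C : α → ℕ) (lt : α → ℕ → ℕ),
  LS q → LS b → LS Λ → LS m → LS BT → LS PS → LS C → LS1 lt →
  (∀ z i, lt z i < 2 ^ q z) → (∀ z, 2 ^ q z ≤ C z) → (∀ z, 2 ^ Λ z ≤ C z) →
  (∀ z, pL (b z * b z * q z) ^ (3 * (b z * b z * q z)) ≤ C z) →
  (∀ z, MM (pL (b z * b z * q z)) 2 ^ (m z / b z * (Λ z + 2) + 1) ≤ C z) →
  LS (fun z => eng (q z) (b z) (Λ z) (lt z) (btN (q z) (BT z)) (psN (q z) (PS z)) (m z))

/-- PAR: the bounds for the parameters. PROOF: as `LX_b3`, `LX_b4` in `Helper78/Xor/Uni.lean`, with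
`two_pow_le_CX`, `pL_le`, `MM_pL_le`: `bS n * bS n * ll n ≤ n / (ll n)^2`, and
`mS n / bS n ≤ n / (ll n)^3`. -/
def G_PAR : Prop := ∀ x q m : ℕ, q ≤ ll (Nat.log 2 x) → m ≤ mS (Nat.log 2 x) →
  2 ^ q ≤ CX x ∧ 2 ^ ll (Nat.log 2 x) ≤ CX x ∧
  pL (bS (Nat.log 2 x) * bS (Nat.log 2 x) * q) ^ (3 * (bS (Nat.log 2 x) * bS (Nat.log 2 x) * q)) ≤
    CX x ∧
  MM (pL (bS (Nat.log 2 x) * bS (Nat.log 2 x) * q)) 2 ^
    (m / bS (Nat.log 2 x) * (ll (Nat.log 2 x) + 2) + 1) ≤ CX x

/-- LSG (assuming LSE and PAR): the universal function is a linear-space function. Models: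
`LS.UMA` in `Helper78/Avg/MpcMain.lean`, `LS.outX` in `Helper78/Xor/Uni.lean`. -/
def G_LSG : Prop := ∀ c : ℕ, LS (fun z : ℕ × ℕ × ℕ => UG c z.1 z.2.1 z.2.2)

/-- UNI: universal simulation for machines with any space bound. PROOF: copy `runV_spec` (end of
`Helper78/Mpc/UnivCorrect.lean`) and `univ_spec` (`Helper78/Mpc/Words.lean`); the hypothesis on the
space is only used there for `hR`. -/
def G_UNI : Prop := ∀ (s : ℕ → ℝ) (L : Set (List Bool)), DSpace s L →
  ∃ e c : ℕ, ∀ (w : List Bool) (Λ β : ℕ), (c : ℝ) * (max (s w.length) 0 + 1) ≤ Λ →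
    c + Λ + w.length ≤ β → (univ e Λ β (num w) = 1 ↔ w ∈ L)

/-- The numbers `nT`, `Bg`, `MC` and the numbering `idx` of the alphabet describe the function `f`
on the words `w` of length at least `n₀` and `y` of length at most `c |w|`. -/
def Desc {T : Type} (f : List Bool → List Bool → List T) (c nT Bg MC n₀ : ℕ) (idx : T → ℕ) :
    Prop :=
  (∀ t, idx t < nT) ∧ Function.Injective idx ∧ (∀ k < nT, ∃ t, idx t = k) ∧
  ∀ w y : List Bool, n₀ ≤ w.length → y.length ≤ c * w.length → ∀ i < mS w.length, ∀ t : T,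
    (isL Bg MC (LW w.length) (2 ^ (2 * ll w.length)) (num w) (num y) i (idx t) = 1 ↔
      (f w y)[i]? = some t)

/-- LET (assuming UNI and ASY): a function computable in small space has a description. PROOF:
`Finite.exists_equiv_fin T`; `MC` is a table of the codes of the machines; `catN_num`, `sdN_num`,
`bitsN_eq`, `length_sd`, `length_bits`. -/
def G_LET : Prop := ∀ (T : Type) [Finite T] (f : List Bool → List Bool → List T) (C ε : ℝ)
  (c : ℕ), 0 < ε → Computable (fun n => C * ((n : ℝ) + 1) ^ (1 - ε)) f →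
  ∃ (nT Bg MC n₀ : ℕ) (idx : T → ℕ), Desc f c nT Bg MC n₀ idx

/-- MAP: the length and the letters of the word `ι(w) f(w, y)`. PROOF: exactly one `t` has
`isL .. t = 1` if `i < |f w y|`, none otherwise; `LT`, `IT` are tables of the values `τ`. Use
`dig_num`, `log_num`, `univ_lt`. -/
def G_MAP : Prop := ∀ (T : Type) (f : List Bool → List Bool → List T) (ι : Bool → T)
  (c nT Bg MC n₀ : ℕ) (idx : T → ℕ) (q : ℕ) (τ : T → ℕ), Desc f c nT Bg MC n₀ idx →
  (∀ t, τ t < 2 ^ q) → ∃ LT IT : ℕ, ∀ w y : List Bool, n₀ ≤ w.length →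
    y.length ≤ c * w.length → w.length + (f w y).length ≤ mS w.length →
    mL nT Bg MC (num w) (num y) = (w.map ι ++ f w y).length ∧
    ∀ (i : ℕ) (h : i < (w.map ι ++ f w y).length),
      ltL q nT Bg MC LT IT (LW w.length) (2 ^ (2 * ll w.length)) (num w) (num y) i =
        τ ((w.map ι ++ f w y)[i])

/-- A language is local if there is a map `μ` from words to a finite set which decides membership of
the nonempty words, and such that the value of a word of length at least two is a function of the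
set of the pairs of the values of its factorizations into two nonempty words. -/
def LocalSys {T : Type} (K : Language T) : Prop :=
  ∃ (X : Type) (_ : Finite X) (μ : List T → X) (Ψ : Set (X × X) → X) (F : Set X),
    (∀ w : List T, 2 ≤ w.length →
      μ w = Ψ {p | ∃ u v : List T, u ≠ [] ∧ v ≠ [] ∧ u ++ v = w ∧ p = (μ u, μ v)}) ∧
    ∀ w : List T, w ≠ [] → (w ∈ K ↔ μ w ∈ F)

/-- The finite set of the suffixes of the conjuncts of the grammar and of the single symbols which
occur there, and of the single nonterminals. -/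
def BooleanGrammar.Sub {T : Type} (G : BooleanGrammar T) : Set (List (T ⊕ G.N)) :=
  {σ | (∃ A, ∃ r ∈ G.rules A, ∃ α ∈ r.1 ++ r.2, σ <:+ α) ∨
    (∃ s, σ = [s] ∧ ∃ A, ∃ r ∈ G.rules A, ∃ α ∈ r.1 ++ r.2, s ∈ α) ∨ ∃ A, σ = [Sum.inr A]}

/-- The values of the symbols on two words agree: `w` and `w'` are of length at least two, and for
every factorization of one of them there is one of the other such that the factors are in the same
languages `str (S i) σ`, `σ ∈ Sub`. -/
def BooleanGrammar.Same {T : Type} (G : BooleanGrammar T) {κ : Type} (S : κ → G.N → Language T)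
    (w w' : List T) : Prop :=
  2 ≤ w.length ∧ ∀ u v : List T, u ≠ [] → v ≠ [] → u ++ v = w →
    ∃ u' v' : List T, u' ≠ [] ∧ v' ≠ [] ∧ u' ++ v' = w' ∧ ∀ i, ∀ σ ∈ G.Sub,
      (u ∈ G.str (S i) σ ↔ u' ∈ G.str (S i) σ) ∧ (v ∈ G.str (S i) σ ↔ v' ∈ G.str (S i) σ)

/-- STR: if the values of the nonterminals on words of length at least two depend only on the values
of the factors, then the languages `S i A` are local. PROOF: `μ w := fun (i, σ : Sub) =>
w ∈ str (S i) σ`; `Sub` is finite. For `σ = s :: τ` and `|w| ≥ 2`: `w ∈ str (s :: τ)` iff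
`u ∈ str [s]` and `v ∈ str τ` for some factorization `w = u v` into nonempty words, or
`[] ∈ str [s]` and `w ∈ str τ`, or `w ∈ str [s]` and `[] ∈ str τ`. So `μ w` is determined by the set
of the pairs of values of the factors; `Ψ` exists by choice. -/
def G_STR : Prop := ∀ (T : Type) (G : BooleanGrammar T) (κ : Type) [Finite κ]
  (S : κ → G.N → Language T),
  (∀ w w', G.Same S w w' → G.Same S w' w → ∀ i A, w ∈ S i A ↔ w' ∈ S i A) →
  ∀ i A, LocalSys (S i A)

/-- SU (assuming STR): Boolean grammars in the semantics of the strongly unique solution. PROOF: let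
`S` be the solution (`κ = Unit`). If `w`, `w'` have the same factorizations, let
`S' A := S A` except that `w ∈ S' A` iff `w' ∈ S A`. Then `S'` solves the system modulo the
factors of `w` (shorter words: nothing changes; for `w` itself the equation is the one of `w'`),
so `S' = S` there. Start with the lemma: if `S`, `S'` agree on the factors of `w` then
`w ∈ str S α ↔ w ∈ str S' α`. -/
def G_SU : Prop := ∀ (T : Type) (G : BooleanGrammar T) (K : Language T), G.Generates K →
  LocalSys K

/-- WF (assuming STR): Boolean grammars in the well-founded semantics. PROOF: `κ = Bool`,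
`S false = W := wellFounded`, `S true = V := least W`; `least V = W` (Knaster-Tarski). Locality:
`J = least I` is the only `J` such that for every `w` the vector `(w ∈ J A)_A` is the least solution
of the system at `w` given by the values of `J` and `I` on the proper factors of `w` and of `I` on
`w`. For a word `w`, `(w ∈ W A)_A` is the least fixed point of the square of the local operator:
define `W'`, `V'` by recursion on the length with the local least fixed points; then
`least W' = V'`, `least V' = W'`, so `W ≤ W'`, and `W' ≤ W` by induction on the length. The local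
least fixed points depend only on the values of the factors. -/
def G_WF : Prop := ∀ (T : Type) (G : BooleanGrammar T), LocalSys (G.wellFounded G.start)

/-- CODE: a local language is described by numbers. PROOF: `X ≃ Fin N` by `e`, `q = N * N`,
`btN q BT x y` is the number with the only bit `x * N + y` (for `x, y < N`; `N ≤ 2 ^ q`), so `orB`
is the set of pairs, and `psN q PS m = e (Ψ {p | bit (e p.1 * N + e p.2) of m is 1})`. By induction
on `j - i` show `V i j = e (μ (w_i … w_{j-1}))` for `0 ≤ i < j ≤ |w|`, using `V_eq`, `dig_orB`. -/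
def G_CODE : Prop := ∀ (T : Type) [Finite T] (K : Language T), LocalSys K →
  ∃ (q BT PS AC : ℕ) (τ : T → ℕ), (∀ t, τ t < 2 ^ q) ∧
    ∀ (w : List T) (lt : ℕ → ℕ), w ≠ [] → (∀ (i : ℕ) (h : i < w.length), lt i = τ w[i]) →
      (w ∈ K ↔ dig 2 AC (V q lt (btN q BT) (psN q PS) 0 w.length) ≠ 0)

/-- ASY: asymptotics. -/
def G_ASY : Prop :=
  (∀ K : ℕ, ∀ᶠ n : ℕ in atTop, K ≤ ll n ∧ 0 < bS n ∧ mS n < 2 ^ (2 * ll n) ∧
    mS n / bS n < 2 ^ ll n ∧ K + LW n + K * (n + 1) ≤ 2 ^ (2 * ll n)) ∧
  (∀ (C ε : ℝ) (K : ℕ), 0 < ε → ∀ᶠ n : ℕ in atTop, ∀ u : ℕ, u ≤ K * (n + 1) →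
    (K : ℝ) * (max (C * ((u : ℝ) + 1) ^ (1 - ε)) 0 + 1) ≤ LW n) ∧
  ∀ (C ε : ℝ) (K : ℕ), 0 < ε → ∀ᶠ n : ℕ in atTop, ∀ u : ℕ, u ≤ K * (n + 1) →
    (n : ℝ) + C * ((u : ℝ) + 1) ^ (3 / 2 - ε) ≤ mS n

/-- COD (assuming all of the above): the universal function is correct. -/
def G_COD : Prop := ∀ (T : Type) [Finite T] (G : BooleanGrammar T) (K : Language T),
  (G.Generates K ∨ K = G.wellFounded G.start) → ∀ (ι : Bool → T)
  (f : List Bool → List Bool → List T) (C ε : ℝ) (c : ℕ), 0 < ε →
  Computable (fun n => C * ((n : ℝ) + 1) ^ (1 - ε)) f →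
  (∀ w y, ((f w y).length : ℝ) ≤ C * ((w.length : ℝ) + y.length + 1) ^ (3 / 2 - ε)) →
  ∃ e n₀ : ℕ, ∀ w α : List Bool, n₀ ≤ w.length → α.length ≤ w.length →
    (UG c e (num α) (num w) ≠ 0 ↔
      ∃ v : List Bool, v.length ≤ c * w.length ∧ w.map ι ++ f w (α ++ v) ∈ K)

end Pool.Agent.Helper95.BG
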