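import Pool.Agent.Helper95.BG.Defs
import Pool.Agent.Helper78.Xor.Uni
import Pool.Agent.Helper78.Avg.Cases

/-!
# Boolean grammars: the evaluation of the membership table as a tree evaluation (definitions)

`V i j` is the value of the factor `w_i … w_{j-1}`. The table of `V` is cut into blocks of side `b`;
`eng` computes `V 0 m` by a tree evaluation of height `(m / b) (Λ + 2) + 1`.
-/

namespace Pool.Agent.Helper95.BG

open Pool.Agent.Helper65.LinSpace Pool.Agent.Helper78 Pool.Agent.Helper78.Mpc Pool.Agent.Helper78.Xor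
  Finset

/-- The bitwise disjunction of two numbers with `q` bits. -/
def lor (q x y : ℕ) : ℕ := tab 2 q fun t => lt01 0 (dig 2 x t + dig 2 y t)

/-- The bitwise disjunction of the numbers `f k`, `lo ≤ k < hi`, with `q` bits. -/
def orB (q lo hi : ℕ) (f : ℕ → ℕ) : ℕ :=
  tab 2 q fun t => lt01 0 (∑ k ∈ range (hi - lo), dig 2 (f (lo + k)) t)

/-- The values of the factors of length at most `d`. -/
def Vf (q : ℕ) (lt : ℕ → ℕ) (bt : ℕ → ℕ → ℕ) (ps : ℕ → ℕ) : ℕ → ℕ → ℕ → ℕ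
  | 0, _, _ => 0
  | d + 1, i, j => if j ≤ i then 0 else if j = i + 1 then lt i else
      ps (orB q (i + 1) j fun k => bt (Vf q lt bt ps d i k) (Vf q lt bt ps d k j))

/-- The value of the factor from `i` to `j`. -/
def V (q : ℕ) (lt : ℕ → ℕ) (bt : ℕ → ℕ → ℕ) (ps : ℕ → ℕ) (i j : ℕ) : ℕ :=
  Vf q lt bt ps (j - i) i j

/-- The block `(I, J)` of the table. -/
def TB (q b : ℕ) (W : ℕ → ℕ → ℕ) (I J : ℕ) : ℕ :=
  tab (2 ^ q) (b * b) fun c => W (I * b + c / b) (J * b + c % b)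

/-- The block `(I, J)` of the table of the contributions of the cuts `k`, `lo ≤ k < hi`. -/
def SB (q b : ℕ) (bt : ℕ → ℕ → ℕ) (W : ℕ → ℕ → ℕ) (I J lo hi : ℕ) : ℕ :=
  tab (2 ^ q) (b * b) fun c =>
    orB q lo hi fun k => bt (W (I * b + c / b) k) (W k (J * b + c % b))

/-- One cell of the block `(I, J)`, from the blocks `DI`, `DJ` on the diagonal, the contribution `S`
of the other blocks, and the preceding approximation `W` of the block. -/
def cellL (q b : ℕ) (lt : ℕ → ℕ) (bt : ℕ → ℕ → ℕ) (ps : ℕ → ℕ) (I J DI DJ S W c : ℕ) : ℕ :=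
  ifz (lt01 (I * b + c / b) (J * b + c % b)) 0
    (ifz (eq01 (J * b + c % b) (I * b + c / b + 1))
      (ps (lor q (lor q
        (orB q (I * b + c / b + 1) (min (J * b + c % b) ((I + 1) * b)) fun k =>
          bt (dig (2 ^ q) DI (c / b * b + (k - I * b))) (dig (2 ^ q) W ((k - I * b) * b + c % b)))
        (dig (2 ^ q) S c))
        (orB q (max (I * b + c / b + 1) (J * b)) (J * b + c % b) fun k =>
          bt (dig (2 ^ q) W (c / b * b + (k - J * b))) (dig (2 ^ q) DJ ((k - J * b) * b + c % b)))))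
      (lt (I * b + c / b)))

/-- One step of the computation inside a block. -/
def stepL (q b : ℕ) (lt : ℕ → ℕ) (bt : ℕ → ℕ → ℕ) (ps : ℕ → ℕ) (I J DI DJ S W : ℕ) : ℕ :=
  tab (2 ^ q) (b * b) (cellL q b lt bt ps I J DI DJ S W)

/-- A block on the diagonal. -/
def diagL (q b : ℕ) (lt : ℕ → ℕ) (bt : ℕ → ℕ → ℕ) (ps : ℕ → ℕ) (I : ℕ) : ℕ :=
  nrec 0 (fun _ W => stepL q b lt bt ps I I W W 0 W) (2 * b)

/-- A block off the diagonal. -/
def offL (q b : ℕ) (lt : ℕ → ℕ) (bt : ℕ → ℕ → ℕ) (ps : ℕ → ℕ) (I J S : ℕ) : ℕ :=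
  nrec 0 (fun _ W => stepL q b lt bt ps I J (diagL q b lt bt ps I) (diagL q b lt bt ps J) S W)
    (2 * b)

/-- The product of two blocks. -/
def prodL (q b : ℕ) (bt : ℕ → ℕ → ℕ) (A B : ℕ) : ℕ :=
  tab (2 ^ q) (b * b) fun c => orB q 0 b fun k =>
    bt (dig (2 ^ q) A (c / b * b + k)) (dig (2 ^ q) B (k * b + c % b))

/-- The disjunction of two blocks. -/
def sumL (q b A B : ℕ) : ℕ :=
  tab (2 ^ q) (b * b) fun c => lor q (dig (2 ^ q) A c) (dig (2 ^ q) B c)

/-- The children of a node. The node `pack4 M 0 I J 0` is the block `(I, J)`, and the node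
`pack4 M (l + 1) I J K` is the contribution of the blocks `K 2^l, …, (K + 1) 2^l - 1` to it. -/
def chT (M Λ u i : ℕ) : ℕ :=
  ifz (u / M / M / M) (pack4 M (Λ + 1) (u / M / M % M) (u / M % M) 0)
    (ifz (u / M / M / M - 1)
      (ifz i (pack4 M 0 (u / M / M % M) (u % M) 0) (pack4 M 0 (u % M) (u / M % M) 0))
      (pack4 M (u / M / M / M - 1) (u / M / M % M) (u / M % M) ((2 * (u % M) + i) % M)))

/-- The operation of the node `u`. -/
def FT (q b M : ℕ) (lt : ℕ → ℕ) (bt : ℕ → ℕ → ℕ) (ps : ℕ → ℕ) (u x : ℕ) : ℕ :=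
  ifz (u / M / M / M)
    (ifz (eq01 (u / M / M % M) (u / M % M))
      (offL q b lt bt ps (u / M / M % M) (u / M % M) (dig (2 ^ (b * b * q)) x 0))
      (diagL q b lt bt ps (u / M / M % M)))
    (ifz (u / M / M / M - 1)
      (ifz (lt01 (u / M / M % M) (u % M) * lt01 (u % M) (u / M % M)) 0
        (prodL q b bt (dig (2 ^ (b * b * q)) x 0) (dig (2 ^ (b * b * q)) x 1)))
      (sumL q b (dig (2 ^ (b * b * q)) x 0) (dig (2 ^ (b * b * q)) x 1)))

/-- The value of the node `u` at the height `h`. -/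
def VT (q b Λ : ℕ) (lt : ℕ → ℕ) (bt : ℕ → ℕ → ℕ) (ps : ℕ → ℕ) (h u : ℕ) : ℕ :=
  gval 2 (b * b * q) (FT q b (2 ^ Λ) lt bt ps) (fun _ => 0) (chT (2 ^ Λ) Λ) h u

/-- The value of the factor from `0` to `m`, by tree evaluation. -/
def eng (q b Λ : ℕ) (lt : ℕ → ℕ) (bt : ℕ → ℕ → ℕ) (ps : ℕ → ℕ) (m : ℕ) : ℕ :=
  dig (2 ^ q) (VT q b Λ lt bt ps (m / b * (Λ + 2) + 1) (pack4 (2 ^ Λ) 0 0 (m / b) 0)) (m % b)

/-- The values of pairs and the values of sets of pairs, given by tables. -/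
def btN (q BT x y : ℕ) : ℕ := dig (2 ^ q) BT (x * 2 ^ q + y)

/-- See `btN`. -/
def psN (q PS x : ℕ) : ℕ := dig (2 ^ q) PS x

/-! ### Words -/

/-- The number of the word `⟨i⟩⟨w⟩y`. -/
def uN (i x z : ℕ) : ℕ := catN (sdN (bitsN i)) (catN (sdN x) z)

/-- The indicator of: the `i`-th letter of `f w y` is the `t`-th letter of the alphabet. -/
def isL (Bg MC Λ β x z i t : ℕ) : ℕ := univ (dig Bg MC t) Λ β (uN i x z)

/-- The length of `f w y`, cut off at `cap`. -/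
def lenL (nT Bg MC Λ β cap x z : ℕ) : ℕ :=
  ∑ i ∈ range cap, lt01 0 (∑ t ∈ range nT, isL Bg MC Λ β x z i t)

/-- The value of the `i`-th letter of the word `ι(w) f(w, y)`. -/
def ltL (q nT Bg MC LT IT Λ β x z i : ℕ) : ℕ :=
  ifz (lt01 i (Nat.log 2 x))
    ((∑ t ∈ range nT, isL Bg MC Λ β x z (i - Nat.log 2 x) t * dig (2 ^ q) LT t) % 2 ^ q)
    (dig (2 ^ q) IT (dig 2 x i))

/-! ### Parameters -/

/-- The side of the blocks. -/
def bS (n : ℕ) : ℕ := Nat.sqrt (n / (ll n * ll n * ll n))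

/-- The bound for the length of the word. -/
def mS (n : ℕ) : ℕ := bS n * (n / (ll n * ll n * ll n))

/-- The length of the word `ι(w) f(w, y)`, cut off. -/
def mL (nT Bg MC x z : ℕ) : ℕ :=
  min (Nat.log 2 x + lenL nT Bg MC (LW (Nat.log 2 x)) (2 ^ (2 * ll (Nat.log 2 x)))
    (mS (Nat.log 2 x)) x z) (mS (Nat.log 2 x))

/-- The code of a list of numbers. -/
def encL : List ℕ → ℕ
  | [] => 0
  | a :: l => Nat.pair a (encL l)

/-- The entries of a list given by its code. -/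
def cp : ℕ → ℕ → ℕ
  | 0, e => (Nat.unpair e).1
  | i + 1, e => cp i (Nat.unpair e).2

/-- The value of the word `ι(w) f(w, y)`; the code `e` has the entries `q`, `BT`, `PS`, `nT`, `Bg`,
`MC`, `LT`, `IT`, `AC`, `a0`. -/
def valG (e x z : ℕ) : ℕ :=
  eng (min (cp 0 e) (ll (Nat.log 2 x))) (bS (Nat.log 2 x)) (ll (Nat.log 2 x))
    (ltL (min (cp 0 e) (ll (Nat.log 2 x))) (cp 3 e) (cp 4 e) (cp 5 e) (cp 6 e) (cp 7 e)
      (LW (Nat.log 2 x)) (2 ^ (2 * ll (Nat.log 2 x))) x z)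
    (btN (min (cp 0 e) (ll (Nat.log 2 x))) (cp 1 e))
    (psN (min (cp 0 e) (ll (Nat.log 2 x))) (cp 2 e))
    (mL (cp 3 e) (cp 4 e) (cp 5 e) x z)

/-- The indicator of: the word `ι(w) f(w, y)` is in the language. -/
def accG (e x z : ℕ) : ℕ :=
  ifz (mL (cp 3 e) (cp 4 e) (cp 5 e) x z) (cp 9 e % 2) (dig 2 (cp 8 e) (valG e x z))

/-- The number of accepting guesses. -/
def UG (c e a x : ℕ) : ℕ :=
  ∑ y ∈ range (2 ^ (c * Nat.log 2 x + 1)), lt01 0 y * accG e x (Avg.catN a y)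

end Pool.Agent.Helper95.BG
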