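import Pool.Agent.Helper78.Mpc.Defs

/-!
# Boolean grammars: definitions
-/

namespace Pool.Agent.Helper95.BG

open Pool.Agent.Helper65.LinSpace Pool.Agent.Helper78.Mpc

/-- A Boolean grammar (Okhotin 2004) over the alphabet `T`. Every nonterminal `A` has finitely many
rules `A → α₁ & … & αₖ & ¬β₁ & … & ¬βₗ`, where the conjuncts `αᵢ` and `βⱼ` are arbitrary strings of
letters and nonterminals. -/
structure BooleanGrammar (T : Type) where
  N : Type
  [finN : Finite N]
  start : N
  rules : N → List (List (List (T ⊕ N)) × List (List (T ⊕ N)))

section

variable {T : Type} (G : BooleanGrammar T)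

/-- The language of a string of letters and nonterminals if the nonterminal `A` has the language
`S A`: the concatenation. -/
def BooleanGrammar.str (S : G.N → Language T) (α : List (T ⊕ G.N)) : Language T :=
  (α.map (Sum.elim (fun a => {[a]}) S)).prod

/-- The right-hand side of the equation of the nonterminal `A`, when the positive conjuncts are
evaluated with `S` and the negative conjuncts with `I`: the words which for some rule of `A` are in
the languages of all positive conjuncts and in none of those of the negative conjuncts. -/
def BooleanGrammar.rhs (I S : G.N → Language T) (A : G.N) : Language T :=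
  {w | ∃ r ∈ G.rules A, (∀ α ∈ r.1, w ∈ G.str S α) ∧ ∀ β ∈ r.2, w ∉ G.str I β}

/-- `K` is the language of `G` in the semantics of the unique solution in the strong sense (Okhotin
2004): there is `S` such that modulo every finite language `M` closed under factors `S` is the only
solution of the system of language equations `A = rhs A`, and `K` is the language of the start
symbol in `S`. -/
def BooleanGrammar.Generates (K : Language T) : Prop :=
  ∃ S : G.N → Language T, S G.start = K ∧
    ∀ M : Set (List T), M.Finite → (∀ w ∈ M, ∀ u, u <:+: w → u ∈ M) →
      ∀ S' : G.N → Language T,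
        (∀ A, ∀ w ∈ M, w ∈ S' A ↔ w ∈ G.rhs S' S' A) ↔ ∀ A, ∀ w ∈ M, w ∈ S' A ↔ w ∈ S A

/-- The least solution `S` of the system `A = rhs A` in which the negative conjuncts are evaluated
with the fixed languages `I`. -/
def BooleanGrammar.least (I : G.N → Language T) (A : G.N) : Language T :=
  {w | ∀ S : G.N → Language T, (∀ B, ∀ u ∈ G.rhs I S B, u ∈ S B) → w ∈ S A}

/-- The language of the nonterminal `A` in the well-founded semantics (Kountouriotis, Nomikos and
Rondogiannis 2009), the set of the words which have the truth value true: this is the least fixed
point of the square of the antitone operator `least`. For grammars without negative conjuncts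
(conjunctive grammars) this is the least solution of the system. -/
def BooleanGrammar.wellFounded (A : G.N) : Language T :=
  {w | ∀ I : G.N → Language T, (∀ B, ∀ u ∈ G.least (G.least I) B, u ∈ I B) → w ∈ I A}

end

/-- `L` is decided by a deterministic Turing machine which halts on every input and whose work heads
stay within `s |u|` cells of their initial cells on the input `u`. -/
def DSpace (s : ℕ → ℝ) (L : Set (List Bool)) : Prop :=
  ∃ (k : ℕ) (M : TM k), ∀ u : List Bool,
    (∃ t, M.next u (M.run u t) = none ∧ (u ∈ L ↔ (M.run u t).state ∈ M.accept)) ∧
    ∀ t i, ((|(M.run u t).head i| : ℤ) : ℝ) ≤ s u.length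

/-- `f` is computable in space `s`: the `i`-th letter of `f w y` can be found in this space, given
the word `⟨i⟩⟨w⟩y`, where `⟨i⟩` is the self-delimiting code of the binary notation of `i` and `⟨w⟩`
that of `w`. -/
def Computable {T : Type} (s : ℕ → ℝ) (f : List Bool → List Bool → List T) : Prop :=
  ∀ t : T, DSpace s {u | ∃ (i : ℕ) (w y : List Bool),
    u = sd i.bits ++ (sd w ++ y) ∧ (f w y)[i]? = some t}

end Pool.Agent.Helper95.BG
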