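import Pool.Agent.Helper95.BG.Final
import Pool.Agent.Helper15.BG.CODE
import Pool.Agent.Helper25.BG.Loc
import Pool.Agent.Helper31.BG.UNI
import Pool.Agent.Helper32.BG.Asy
import Pool.Agent.Helper49.BG.PAR
import Pool.Agent.Helper54.BG.Cod
import Pool.Agent.Helper56.BG.Lse
import Pool.Agent.Helper60.BG.WF
import Pool.Agent.Helper7.BG.Str
import Pool.Agent.Helper81.BG.SU
import Pool.Agent.Helper85.BG.LSG
import Pool.Agent.Helper90.BG.Map
import Pool.Agent.Helper27.BG.Tree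
import Pool.Agent.Helper69.BG.LET

/-!
# Boolean grammars: the main theorem
-/

namespace Pool.Agent.Helper95.BG

open Pool.Agent.Helper65.LinSpace Pool.Agent.Helper78.Mpc

theorem main (c : ℕ) :
    ∃ (L : Set (List Bool)) (s : ℕ → List Bool), DLINSPACE L ∧ (∀ n, (s n).length = n) ∧
      (∀ w, w ∈ L ↔ Odd ((List.zipWith and (s w.length) w).count true)) ∧
      ∀ (T : Type) [Finite T] (G : BooleanGrammar T) (K : Language T),
        (G.Generates K ∨ K = G.wellFounded G.start) →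
        ∀ (ι : Bool → T) (f : List Bool → List Bool → List T) (C ε : ℝ), 0 < ε →
        Computable (fun n => C * ((n : ℝ) + 1) ^ (1 - ε)) f →
        (∀ w y, ((f w y).length : ℝ) ≤ C * ((w.length : ℝ) + y.length + 1) ^ (3 / 2 - ε)) →
        ∃ c' : ℝ, ∀ (n : ℕ) (α : List Bool),
          |({w : List Bool | w.length = n ∧ (w ∈ L ↔ ∃ v : List Bool, v.length ≤ c * n ∧
            w.map ι ++ f w (α ++ v) ∈ K)}.ncard : ℝ) - 2 ^ n / 2| ≤
            c' * ((min α.length (n - α.length) : ℕ) + 1) * 2 ^ (((n : ℝ) + α.length) / 2) :=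
  main_of c (Helper85.BG.PkLSG.thm Helper56.BG.PkLSE.thm Helper49.BG.PkPAR.thm)
    (Helper54.BG.PkCOD.thm (Helper27.BG.PkTREE.thm Helper25.BG.PkLOC.thm)
      (Helper69.BG.PkLET.thm Helper31.BG.PkUNI.thm Helper32.BG.PkASY.thm) Helper90.BG.PkMAP.thm
      (Helper81.BG.PkSU.thm Helper7.BG.PkSTR.thm) (Helper60.BG.PkWF.thm Helper7.BG.PkSTR.thm)
      Helper15.BG.PkCODE.thm Helper32.BG.PkASY.thm)

end Pool.Agent.Helper95.BG
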